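import Pool.Agent.X166.RMC

/-!
# Radial mean bodies of negative order embed in L^q

For every convex body `K` in Euclidean n-space, `n ≥ 1`, and every `p ∈ (-1, 0)`, the radial mean
body `R_p K` embeds in `L^{-p}`.
-/

open MeasureTheory Set FourierTransform Metric
open scoped Real ENNReal Pointwise

namespace Pool.Agent.Results.MP_fd6526_gt.AllBodiesEmbed

/-- Euclidean n-space. -/
abbrev Euc (n : ℕ) : Type := EuclideanSpace ℝ (Fin n)

/-- A convex body: a compact convex set with nonempty interior. -/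
structure IsConvexBody {n : ℕ} (K : Set (Euc n)) : Prop where
  compact : IsCompact K
  convex : Convex ℝ K
  interior_nonempty : (interior K).Nonempty

/-- The radial function `ρ_M(x) = sup {t ≥ 0 : t x ∈ M}`. -/
noncomputable def radial {n : ℕ} (M : Set (Euc n)) (x : Euc n) : ℝ :=
  sSup {t : ℝ | 0 ≤ t ∧ t • x ∈ M}

/-- The radial function of the radial p-th mean body `R_p K`:
`(Vol(K)⁻¹ ∫_K ρ_{K - y}(x) ^ p dy) ^ (1 / p)`. -/
noncomputable def radialMean {n : ℕ} (p : ℝ) (K : Set (Euc n)) (x : Euc n) : ℝ :=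
  ((volume K).toReal⁻¹ * ∫ y in K, radial (K - {y}) x ^ p) ^ (1 / p)

/-- A body with radial function `ρ` embeds in `L^q`: there is a finite Borel measure `μ` on the
unit sphere such that `ρ(x) ^ (-q) = ∫ |⟨x, u⟩| ^ q dμ(u)` for all `x ≠ 0`. -/
def EmbedsInLq {n : ℕ} (ρ : Euc n → ℝ) (q : ℝ) : Prop :=
  ∃ μ : Measure (sphere (0 : Euc n) 1), IsFiniteMeasure μ ∧
    ∀ x : Euc n, x ≠ 0 → ρ x ^ (-q) = ∫ u, |inner ℝ x (u : Euc n)| ^ q ∂μ

theorem radial_eq {n : ℕ} (K : Set (Euc n)) (x y : Euc n) :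
    radial (K - {y}) x = Pool.Agent.X166.RM.RR K x y := by
  unfold radial Pool.Agent.X166.RM.RR
  congr 1
  ext t
  simp only [mem_ofPred_eq]
  refine and_congr_right fun _ => ?_
  rw [sub_singleton, mem_image]
  constructor
  · rintro ⟨k, hk, h⟩
    rw [← h, add_sub_cancel]
    exact hk
  · intro h
    exact ⟨_, h, by rw [add_sub_cancel_left]⟩

/-- Radial projection to the unit sphere (with value `e` at the origin). -/
noncomputable def proj {n : ℕ} (e : sphere (0 : Euc n) 1) (ξ : Euc n) : sphere (0 : Euc n) 1 :=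
  ⟨if ξ = 0 then (e : Euc n) else (‖ξ‖)⁻¹ • ξ, by
    split_ifs with h
    · exact e.2
    · rw [mem_sphere_zero_iff_norm, norm_smul, norm_inv, norm_norm,
        inv_mul_cancel₀ (norm_ne_zero_iff.2 h)]⟩

theorem proj_measurable {n : ℕ} (e : sphere (0 : Euc n) 1) : Measurable (proj e) := by
  refine Measurable.subtype_mk ?_
  refine Measurable.ite (measurableSet_singleton 0) measurable_const ?_
  exact (measurable_norm.inv).smul measurable_id

theorem norm_rpow_le {n : ℕ} {q : ℝ} (hq : 0 < q) (ξ : Euc n) :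
    ‖ξ‖ ^ q ≤ (n : ℝ) ^ q * ∑ i, |inner ℝ (EuclideanSpace.single i (1 : ℝ)) ξ| ^ q := by
  have h1 : ∀ i, inner ℝ (EuclideanSpace.single i (1 : ℝ)) ξ = ξ i := fun i => by
    rw [EuclideanSpace.inner_single_left]; simp
  simp only [h1]
  have hsum0 : 0 ≤ ∑ i, |ξ i| ^ q := Finset.sum_nonneg fun i _ => Real.rpow_nonneg (abs_nonneg _) _
  rcases Nat.eq_zero_or_pos n with h0 | hn
  · subst h0
    have : ξ = 0 := Subsingleton.elim _ _
    rw [this, norm_zero, Real.zero_rpow hq.ne']
    positivity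
  have hle : ‖ξ‖ ≤ ∑ i, |ξ i| := by
    rw [EuclideanSpace.norm_eq]
    rw [Real.sqrt_le_left (Finset.sum_nonneg fun i _ => abs_nonneg _)]
    simp only [Real.norm_eq_abs]
    exact Finset.sum_sq_le_sq_sum_of_nonneg fun i _ => abs_nonneg _
  obtain ⟨i, hi⟩ : ∃ i, ‖ξ‖ ≤ n * |ξ i| := by
    by_contra hcon
    push Not at hcon
    have h2 : ∑ i : Fin n, n * |ξ i| < ∑ _i : Fin n, ‖ξ‖ := by
      apply Finset.sum_lt_sum_of_nonempty ⟨⟨0, hn⟩, Finset.mem_univ _⟩
      intro i _
      exact hcon i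
    rw [← Finset.mul_sum, Finset.sum_const, Finset.card_univ, Fintype.card_fin,
      nsmul_eq_mul] at h2
    have hn' : (0 : ℝ) < n := by exact_mod_cast hn
    have := lt_of_mul_lt_mul_left h2 hn'.le
    linarith
  calc ‖ξ‖ ^ q ≤ (n * |ξ i|) ^ q := Real.rpow_le_rpow (norm_nonneg _) hi hq.le
    _ = (n : ℝ) ^ q * |ξ i| ^ q := Real.mul_rpow (Nat.cast_nonneg _) (abs_nonneg _)
    _ ≤ (n : ℝ) ^ q * ∑ i, |ξ i| ^ q := by
      apply mul_le_mul_of_nonneg_left _ (by positivity)
      exact Finset.single_le_sum (f := fun i => |ξ i| ^ q)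
        (fun i _ => Real.rpow_nonneg (abs_nonneg _) _) (Finset.mem_univ i)

/-- For all `n ≥ 1`, all convex bodies `K` in Euclidean n-space and all `p ∈ (-1, 0)`, the radial
p-th mean body `R_p K` embeds in `L^{-p}`. -/
theorem result : ∀ n : ℕ, 1 ≤ n → ∀ K : Set (Euc n), IsConvexBody K → ∀ p : ℝ, -1 < p → p < 0 →
    EmbedsInLq (radialMean p K) (-p) := by
  intro n hn K hK p hp1 hp0
  set q := -p with hqp
  have hq : 0 < q := by linarith
  have hq1 : q < 1 := by linarith
  have hpq : p = -q := by linarith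
  have hfr : 1 ≤ Module.finrank ℝ (Euc n) := by simpa using hn
  have hKm : MeasurableSet K := hK.compact.measurableSet
  have hfin : volume K ≠ ∞ := hK.compact.measure_lt_top.ne
  have hVpos : 0 < (volume K).toReal := by
    apply ENNReal.toReal_pos _ hfin
    exact (Measure.measure_pos_of_nonempty_interior _ hK.interior_nonempty).ne'
  set V := (volume K).toReal with hV
  have key := fun {x : Euc n} (hx : x ≠ 0) => Pool.Agent.X166.RM.key hK.compact hK.convex
    hK.interior_nonempty hfr hq hq1 hx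
  have hC := Pool.Agent.X166.RM.Cq_nonneg hq
  set C := Pool.Agent.X166.RM.Cq q with hCdef
  set F : Euc n → ℂ := 𝓕 (Pool.Agent.X166.RM.ic K) with hF
  have hFc : Continuous F := Pool.Agent.X166.RM.continuous_fourier_ic hKm hfin
  have hnonempty : Nonempty (Fin n) := ⟨⟨0, hn⟩⟩
  obtain ⟨e⟩ : Nonempty (sphere (0 : Euc n) 1) :=
    (NormedSpace.sphere_nonempty.2 zero_le_one).to_subtype
  -- the density
  set w : Euc n → ℝ := fun ξ => V⁻¹ * (‖F ξ‖ ^ 2 * (C * ‖ξ‖ ^ q)) with hw
  have hw0 : ∀ ξ, 0 ≤ w ξ := fun ξ => by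
    simp only [hw]
    have := Real.rpow_nonneg (norm_nonneg ξ) q
    positivity
  have hwm : Measurable w := by
    have m1 : Measurable fun ξ : Euc n => ‖F ξ‖ ^ 2 := (hFc.measurable.norm).pow_const 2
    have m2 : Measurable fun ξ : Euc n => C * ‖ξ‖ ^ q := by fun_prop
    exact (m1.mul m2).const_mul _
  set ν : Measure (Euc n) := volume.withDensity (fun ξ => ENNReal.ofReal (w ξ)) with hν
  set μ : Measure (sphere (0 : Euc n) 1) := ν.map (proj e) with hμ
  -- the basic formula
  have hformula : ∀ x : Euc n, x ≠ 0 →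
      ∫⁻ u, ENNReal.ofReal (|inner ℝ x (u : Euc n)| ^ q) ∂μ
        = ENNReal.ofReal V⁻¹ * ∫⁻ y in K, ENNReal.ofReal
          (Pool.Agent.X166.RM.RR K x y ^ (-q)) := by
    intro x hx
    have hm : Measurable fun u : sphere (0 : Euc n) 1 =>
        ENNReal.ofReal (|inner ℝ x (u : Euc n)| ^ q) := by
      have : Measurable fun u : sphere (0 : Euc n) 1 => inner ℝ x (u : Euc n) := by
        have : Continuous fun u : sphere (0 : Euc n) 1 => inner ℝ x (u : Euc n) := by fun_prop
        exact this.measurable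
      exact ENNReal.measurable_ofReal.comp ((this.abs).pow_const q)
    have hm' : Measurable fun ξ : Euc n =>
        ENNReal.ofReal (|inner ℝ x (proj e ξ : Euc n)| ^ q) := hm.comp (proj_measurable e)
    have hwm' : Measurable fun ξ : Euc n => ENNReal.ofReal (w ξ) :=
      ENNReal.measurable_ofReal.comp hwm
    rw [hμ, lintegral_map hm (proj_measurable e), hν,
      lintegral_withDensity_eq_lintegral_mul _ hwm' hm', (key hx).2,
      ← lintegral_const_mul' _ _ ENNReal.ofReal_ne_top]
    refine lintegral_congr fun ξ => ?_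
    show ENNReal.ofReal (w ξ) * ENNReal.ofReal (|inner ℝ x (proj e ξ : Euc n)| ^ q) = _
    rw [← ENNReal.ofReal_mul (hw0 ξ), ← ENNReal.ofReal_mul (inv_nonneg.2 hVpos.le)]
    congr 1
    simp only [hw]
    by_cases hξ : ξ = 0
    · rw [hξ, norm_zero, inner_zero_right, abs_zero, Real.zero_rpow hq.ne']
      ring
    · have hn0 : 0 < ‖ξ‖ := norm_pos_iff.2 hξ
      have h1 : (proj e ξ : Euc n) = (‖ξ‖)⁻¹ • ξ := by
        show (if ξ = 0 then (e : Euc n) else (‖ξ‖)⁻¹ • ξ) = _
        rw [if_neg hξ]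
      rw [h1, real_inner_smul_right, abs_mul, abs_of_pos (inv_pos.2 hn0),
        Real.mul_rpow (inv_nonneg.2 hn0.le) (abs_nonneg _), Real.inv_rpow hn0.le]
      have h2 : ‖ξ‖ ^ q ≠ 0 := (Real.rpow_pos_of_pos hn0 q).ne'
      field_simp
  -- finiteness
  have hfinite : IsFiniteMeasure μ := by
    constructor
    rw [hμ, Measure.map_apply (proj_measurable e) MeasurableSet.univ, preimage_univ, hν,
      withDensity_apply _ MeasurableSet.univ, Measure.restrict_univ]
    have hbound : ∀ ξ, ENNReal.ofReal (w ξ) ≤ ENNReal.ofReal (V⁻¹ * (n : ℝ) ^ q)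
        * ∑ i : Fin n, ENNReal.ofReal
          (‖F ξ‖ ^ 2 * (C * |inner ℝ (EuclideanSpace.single i (1 : ℝ)) ξ| ^ q)) := by
      intro ξ
      rw [← ENNReal.ofReal_sum_of_nonneg (fun i _ => by positivity),
        ← ENNReal.ofReal_mul (by positivity)]
      apply ENNReal.ofReal_le_ofReal
      have h1 := norm_rpow_le hq ξ
      simp only [hw]
      calc V⁻¹ * (‖F ξ‖ ^ 2 * (C * ‖ξ‖ ^ q))
          ≤ V⁻¹ * (‖F ξ‖ ^ 2 * (C * ((n : ℝ) ^ q
            * ∑ i, |inner ℝ (EuclideanSpace.single i (1 : ℝ)) ξ| ^ q))) := by gcongr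
        _ = _ := by
          rw [← Finset.mul_sum, ← Finset.mul_sum]
          ring
    refine (lintegral_mono hbound).trans_lt ?_
    rw [lintegral_const_mul' _ _ ENNReal.ofReal_ne_top]
    refine ENNReal.mul_lt_top ENNReal.ofReal_lt_top ?_
    rw [lintegral_finsetSum]
    · refine ENNReal.sum_lt_top.2 fun i _ => ?_
      have hei : (EuclideanSpace.single i (1 : ℝ) : Euc n) ≠ 0 := by
        intro h
        have := congrArg (fun v : Euc n => v i) h
        simp at this
      rw [← (key hei).2]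
      exact (key hei).1
    · intro i _
      have m1 : Measurable fun ξ : Euc n => ‖F ξ‖ ^ 2 := (hFc.measurable.norm).pow_const 2
      have m2 : Measurable fun ξ : Euc n =>
          C * |inner ℝ (EuclideanSpace.single i (1 : ℝ)) ξ| ^ q := by
        have : Measurable fun ξ : Euc n => inner ℝ (EuclideanSpace.single i (1 : ℝ)) ξ := by
          have : Continuous fun ξ : Euc n => inner ℝ (EuclideanSpace.single i (1 : ℝ)) ξ := by
            fun_prop
          exact this.measurable
        exact ((this.abs).pow_const q).const_mul C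
      exact ENNReal.measurable_ofReal.comp (m1.mul m2)
  refine ⟨μ, hfinite, fun x hx => ?_⟩
  -- from lower integrals to integrals
  have hA : ∫ y in K, radial (K - {y}) x ^ p
      = (∫⁻ y in K, ENNReal.ofReal (Pool.Agent.X166.RM.RR K x y ^ (-q))).toReal := by
    rw [← integral_eq_lintegral_of_nonneg_ae]
    · simp only [radial_eq]
      rw [hpq]
    · filter_upwards [ae_restrict_mem hKm] with y hy
      exact Real.rpow_nonneg (Pool.Agent.X166.RM.RR_iff hK.compact hK.convex hx hy).1 _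
    · exact Pool.Agent.X166.RM.aesm hK.compact hK.convex hx q
  have hA0 : 0 ≤ V⁻¹ * ∫ y in K, radial (K - {y}) x ^ p := by
    rw [hA]; positivity
  have hB : ∫ u, |inner ℝ x (u : Euc n)| ^ q ∂μ
      = (∫⁻ u, ENNReal.ofReal (|inner ℝ x (u : Euc n)| ^ q) ∂μ).toReal := by
    rw [integral_eq_lintegral_of_nonneg_ae]
    · exact Filter.Eventually.of_forall fun u => Real.rpow_nonneg (abs_nonneg _) _
    · have : Continuous fun u : sphere (0 : Euc n) 1 => |inner ℝ x (u : Euc n)| ^ q := by
        refine Continuous.rpow_const (by fun_prop) fun u => Or.inr hq.le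
      exact this.aestronglyMeasurable
  rw [hB, hformula x hx, ENNReal.toReal_mul, ENNReal.toReal_ofReal (inv_nonneg.2 hVpos.le), ← hA]
  unfold radialMean
  rw [← hV, ← hpq, ← Real.rpow_mul hA0, one_div, inv_mul_cancel₀ (by linarith), Real.rpow_one]

end Pool.Agent.Results.MP_fd6526_gt.AllBodiesEmbed
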